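import Pool.Agent.BEH.Stmts

/-!
# BEH, row QUA: quadrature
-/

set_option autoImplicit false

namespace Pool.Agent.BEH.H52

open Set Filter Topology MeasureTheory
open scoped InnerProductSpace ENNReal
open Pool.Agent.BE01 Pool.Agent.BEL Pool.Agent.BEH

theorem lc_sq {d N : ℕ} (f : Fin N → En d → ℝ) (c : Fin N → ℝ) (x : En d) :
    lc f c x ^ 2 = ∑ a, ∑ b, c a * c b * (f a x * f b x) := by
  unfold lc
  rw [pow_two, Finset.sum_mul_sum]
  apply Finset.sum_congr rfl
  intro a _
  apply Finset.sum_congr rfl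
  intro b _
  ring

theorem quad_bound {N : ℕ} (c : Fin N → ℝ) (E : Fin N → Fin N → ℝ)
    (hE : ∀ a b, |E a b - (if a = b then 1 else 0)| ≤ 1 / (100 * ((N : ℝ) + 1))) :
    |(∑ a, ∑ b, c a * c b * E a b) - sq c| ≤ 1 / 100 * sq c := by
  have h1 : sq c = ∑ a, ∑ b, c a * c b * (if a = b then (1 : ℝ) else 0) := by
    unfold sq
    apply Finset.sum_congr rfl
    intro a _
    rw [Finset.sum_eq_single a]
    · rw [if_pos rfl]
      ring
    · intro b _ hb
      rw [if_neg (fun h => hb h.symm), mul_zero]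
    · intro h
      exact absurd (Finset.mem_univ a) h
  have h2 : (∑ a, ∑ b, c a * c b * E a b) - sq c =
      ∑ a, ∑ b, c a * c b * (E a b - (if a = b then (1 : ℝ) else 0)) := by
    rw [h1, ← Finset.sum_sub_distrib]
    apply Finset.sum_congr rfl
    intro a _
    rw [← Finset.sum_sub_distrib]
    apply Finset.sum_congr rfl
    intro b _
    ring
  have hN : (0 : ℝ) < 100 * ((N : ℝ) + 1) := by positivity
  have h3 : |∑ a, ∑ b, c a * c b * (E a b - (if a = b then (1 : ℝ) else 0))| ≤
      ∑ a, ∑ b, |c a| * |c b| * (1 / (100 * ((N : ℝ) + 1))) := by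
    refine (Finset.abs_sum_le_sum_abs _ _).trans (Finset.sum_le_sum fun a _ => ?_)
    refine (Finset.abs_sum_le_sum_abs _ _).trans (Finset.sum_le_sum fun b _ => ?_)
    rw [abs_mul, abs_mul]
    exact mul_le_mul_of_nonneg_left (hE a b) (by positivity)
  have h4 : ∑ a, ∑ b, |c a| * |c b| * (1 / (100 * ((N : ℝ) + 1))) =
      (∑ a, |c a|) ^ 2 * (1 / (100 * ((N : ℝ) + 1))) := by
    rw [pow_two, Finset.sum_mul_sum, Finset.sum_mul]
    apply Finset.sum_congr rfl
    intro a _
    rw [Finset.sum_mul]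
  have h5 : (∑ a, |c a|) ^ 2 ≤ (N : ℝ) * sq c := by
    have h := sq_sum_le_card_mul_sum_sq (s := (Finset.univ : Finset (Fin N)))
      (f := fun a => |c a|)
    simp only [Finset.card_univ, Fintype.card_fin, sq_abs] at h
    exact h
  have h6 : 0 ≤ sq c := Finset.sum_nonneg fun a _ => sq_nonneg _
  rw [h2]
  refine h3.trans ?_
  rw [h4]
  calc (∑ a, |c a|) ^ 2 * (1 / (100 * ((N : ℝ) + 1)))
      ≤ (N : ℝ) * sq c * (1 / (100 * ((N : ℝ) + 1))) :=
        mul_le_mul_of_nonneg_right h5 (by positivity)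
    _ = (N : ℝ) * sq c / (100 * ((N : ℝ) + 1)) := by ring
    _ ≤ 1 / 100 * sq c := by
        rw [div_le_iff₀ hN]
        nlinarith

theorem qua : QuaStmt := by
  intro d Ω N B f S hD hf hint hS
  obtain ⟨hO, hb, hne⟩ := hD
  have hfin : volume Ω < ⊤ := hb.measure_lt_top
  have hpos : 0 < volume Ω := hO.measure_pos volume hne
  have hm : 0 < volume.real Ω := ENNReal.toReal_pos hpos.ne' hfin.ne
  haveI hf1 : IsFiniteMeasure (volume.restrict Ω) := ⟨by rwa [Measure.restrict_apply_univ]⟩
  haveI hz1 : NeZero (volume.restrict Ω) := ⟨by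
    intro h
    rw [Measure.restrict_eq_zero] at h
    exact hpos.ne' h⟩
  set Φ : En d → (Fin N × Fin N → ℝ) := fun x p => f p.1 x * f p.2 x with hΦ
  have hΦm : Measurable Φ := measurable_pi_lambda _ (fun p => (hf p.1).1.mul (hf p.2).1)
  have hΦb : ∀ x, ‖Φ x‖ ≤ B * B := by
    intro x
    rw [pi_norm_le_iff_of_nonneg (mul_self_nonneg B)]
    intro p
    rw [hΦ, Real.norm_eq_abs, abs_mul]
    exact mul_le_mul ((hf p.1).2 x) ((hf p.2).2 x) (abs_nonneg _)
      ((abs_nonneg _).trans ((hf p.1).2 x))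
  have hΦi : Integrable Φ (volume.restrict Ω) :=
    Integrable.of_bound hΦm.aestronglyMeasurable (B * B) (Eventually.of_forall hΦb)
  have havg : (⨍ x in Ω, Φ x) ∈ closure (convexHull ℝ (Φ '' (Ω ∩ S))) := by
    apply (convex_convexHull ℝ _).closure.average_mem isClosed_closure _ hΦi
    filter_upwards [ae_restrict_mem hO.measurableSet, ae_restrict_of_ae hS] with x hx hxS
    exact subset_closure (subset_convexHull ℝ _ ⟨x, ⟨hx, hxS⟩, rfl⟩)
  have hav : ∀ a b, volume.real Ω * (⨍ x in Ω, Φ x) (a, b) = if a = b then 1 else 0 := by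
    intro a b
    rw [average_eq, Pi.smul_apply, smul_eq_mul]
    have h1 : (∫ x in Ω, Φ x) (a, b) = ∫ x in Ω, Φ x (a, b) :=
      ((ContinuousLinearMap.proj (R := ℝ) (φ := fun _ : Fin N × Fin N => ℝ)
        (a, b)).integral_comp_comm hΦi).symm
    rw [h1]
    have h2 : (∫ x in Ω, Φ x (a, b)) = if a = b then 1 else 0 := hint a b
    have h3 : (volume.restrict Ω).real univ = volume.real Ω := by
      rw [measureReal_def, Measure.restrict_apply_univ, measureReal_def]
    rw [h2, h3, ← mul_assoc, mul_inv_cancel₀ hm.ne', one_mul]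
  obtain ⟨v, hv, hdist⟩ := Metric.mem_closure_iff.1 havg
    (1 / (100 * ((N : ℝ) + 1) * volume.real Ω)) (by positivity)
  obtain ⟨ι, hι, z, p, hz, hai, hp, -, hpv⟩ := eq_pos_convex_span_of_mem_convexHull hv
  have hz2 : ∀ i, ∃ y, (y ∈ Ω ∩ S) ∧ Φ y = z i := fun i => hz ⟨i, rfl⟩
  choose y hy hyz using hz2
  have hinj : Function.Injective z := hai.injective
  set e : Fin (Fintype.card ι) ≃ ι := (Fintype.equivFin ι).symm with he
  refine ⟨Fintype.card ι, fun j => y (e j), fun j => volume.real Ω * p (e j), ?_, ?_, ?_⟩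
  · intro j j' hjj
    have h1 : z (e j) = z (e j') := by
      rw [← hyz, ← hyz]
      exact congrArg Φ hjj
    exact e.injective (hinj h1)
  · intro j
    exact ⟨(hy (e j)).1, (hy (e j)).2, mul_pos hm (hp (e j))⟩
  · intro c
    have h1 : (∑ j, volume.real Ω * p (e j) * lc f c (y (e j)) ^ 2) =
        ∑ a, ∑ b, c a * c b * (volume.real Ω * v (a, b)) := by
      rw [Equiv.sum_comp e (fun i => volume.real Ω * p i * lc f c (y i) ^ 2)]
      have h2 : ∀ i, volume.real Ω * p i * lc f c (y i) ^ 2 =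
          ∑ a, ∑ b, c a * c b * (volume.real Ω * (p i * z i (a, b))) := by
        intro i
        rw [lc_sq, Finset.mul_sum]
        apply Finset.sum_congr rfl
        intro a _
        rw [Finset.mul_sum]
        apply Finset.sum_congr rfl
        intro b _
        have h3 : z i (a, b) = f a (y i) * f b (y i) := by rw [← hyz]
        rw [h3]
        ring
      simp only [h2]
      rw [Finset.sum_comm]
      apply Finset.sum_congr rfl
      intro a _
      rw [Finset.sum_comm]
      apply Finset.sum_congr rfl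
      intro b _
      rw [← Finset.mul_sum, ← Finset.mul_sum]
      congr 2
      rw [← hpv, Finset.sum_apply]
      rfl
    have h4 := quad_bound c (fun a b => volume.real Ω * v (a, b)) (by
      intro a b
      rw [← hav a b]
      have h5 : |v (a, b) - (⨍ x in Ω, Φ x) (a, b)| ≤
          1 / (100 * ((N : ℝ) + 1) * volume.real Ω) := by
        rw [← Real.dist_eq, dist_comm]
        exact (dist_le_pi_dist _ _ (a, b)).trans hdist.le
      rw [← mul_sub, abs_mul, abs_of_pos hm]
      calc volume.real Ω * |v (a, b) - (⨍ x in Ω, Φ x) (a, b)|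
          ≤ volume.real Ω * (1 / (100 * ((N : ℝ) + 1) * volume.real Ω)) :=
            mul_le_mul_of_nonneg_left h5 hm.le
        _ = 1 / (100 * ((N : ℝ) + 1)) := by
            field_simp)
    have h6 := abs_le.1 h4
    change 99 / 100 * sq c ≤ (∑ j, volume.real Ω * p (e j) * lc f c (y (e j)) ^ 2) ∧
      (∑ j, volume.real Ω * p (e j) * lc f c (y (e j)) ^ 2) ≤ 101 / 100 * sq c
    rw [h1]
    constructor
    · linarith [h6.1]
    · linarith [h6.2]

end Pool.Agent.BEH.H52
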